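import Pool.Agent.K6.H94.XB.Res

/-!
# The noncommutative standard conjecture of type `D` for `𝒜 ⊠ D^perf(X ^ n)`, `X` any variety with known
Hodge conjecture, `𝒜` arbitrary of bounded Hochschild amplitude: one power of `X` suffices, with an
**explicit** exponent which depends only on the Betti numbers and the dimension of `X` and on the amplitude

Let `T` be a Hodge theory on a class of smooth projective varieties (in the intended use all smooth
projective complex varieties and `X ↦ H(X, ℚ)`), and let `X` be **any** variety of the class (with a
polarised cohomology). A smooth proper dg category `𝒜` which is an admissible subcategory of `D^perf(Z)`, or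
more generally a direct factor of the noncommutative motive of `Z`, enters through the Mukai vector
`q ∈ H(Z × Z)` of the kernel of its projector (`IsAdmissible`): the correspondence `q` is an idempotent of
`H(Z)`. The classes of `K_0(𝒜) ⊗ ℚ` modulo homological equivalence are the algebraic classes on `Z` fixed by
`q`; over the complex numbers `HP_0(𝒜)` is the image of `q` in the even cohomology of `Z` with complex
coefficients; the Hochschild homology `HH_n(𝒜)` is the part of the image of `q` in
`⨁_{a - b = n} H^(a,b)(Z)`; the conjecture `NCStandardD` says that numerically trivial classes in `K_0(𝒜)`
are homologically trivial. The category `𝒜 ⊠ D^perf(Y)` is given by the external product of `q` and the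
diagonal of `Y`.

**Theorem.** Let `b`, `d`, `w` be natural numbers and `N + 1` at least the explicit number
`factors b d w`. For **all** `X` of dimension at most `d` with sum of Betti numbers at most `b`: if the Hodge
conjecture holds for `X ^ (N + 1)`, then for **all** `Z` and **all** `𝒜` in `D^perf(Z)` with `HH_n(𝒜) = 0` for
`|n| > w`: the noncommutative standard conjecture of type `D` for `𝒜 ⊠ D^perf(X ^ (N + 1))` implies the one for
`𝒜 ⊠ D^perf(X ^ n)` for **all** `n`, and for all `𝒟` whose noncommutative motive comes from these
categories.

For instance `X` can be a product of elliptic curves, a variety with a cellular decomposition, a very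
general abelian variety or any abelian variety whose Hodge ring is generated by divisors (for all powers), a
K3 surface with complex multiplication, …: then the Hodge conjecture is known for all powers of `X` and the
theorem is unconditional. For `𝒜 = D^perf(Z)` it says that Grothendieck's standard conjecture of type `D` for
`Z × X ^ (N + 1)` implies the one for `Z × X ^ n` for all `n`, and `N` depends only on `b`, `d` and on the
level of `Z`, for instance on the dimension of `Z`. (If the conjecture of Lefschetz type is known for `Z`, for
instance for surfaces, then type `D` is known for `Z × X ^ n` for many such `X`; nothing is assumed on `Z` and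
`𝒜` here.) The number `N` is the same for all `𝒜` of amplitude at most `w`, which form unbounded families
with infinitely many different Hodge groups and endomorphism algebras; the Hodge structures of `𝒜` and `X` can
be related in any way.

The result `BoundedByAmplitude` is about special abelian varieties `X`, and uses the first
fundamental theorem for their Hodge groups; here `X` is any variety with known Hodge conjecture.

*The proof.* A numerically trivial algebraic class `x` in `𝒜 ⊠ D(X ^ n)` is a Hodge class, so it gives a map
`H(Z) → H(X ^ n)` which factors through the transposed projector, and its image is a Hodge substructure of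
level at most `w`. The identity of all tensors of level at most `w`, for all `n`, is a sum of products
`H(X ^ n) → H(X ^ (N + 1)) → H(X ^ n)` of Hodge classes `β_i`, `α_i` (`Pool.Agent.K6.H94.FG`, double
commutant theorem and Galois descent), since the matrix coefficients of bounded level have bounded degree.
(1) *Explicit finiteness.* Consider the functions `g ↦ φ(g v)` on the Hodge group `G` of `X`, for all
`n`, all tensors `v ∈ H(X, ℂ)^{⊗ n}` on whose orbit all the conjugates of the Hodge cocharacter have weights
between `-w` and `w`, and all linear forms `φ`. They are polynomials in the matrix entries of `g` of
**explicitly bounded degree** (`Pool.Agent.K6.H94.XB.fnl`, a general theorem on groups generated by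
cocharacters with bounded weights which preserve a non-degenerate form). Proof: let `g₀` be a product of
`r` conjugates of the cocharacter with parameters `T_1, …, T_r` and `r ≤ b ^ 2` maximal such that `r` of
its entries are algebraically independent; then `g₀` is a generic point, and the values at `g₀` of these
functions are Laurent polynomials in `T_1, …, T_r` with all exponents between `-w` and `w`. Counting
dimensions gives a relation of bounded degree between `s`, `θ + s f` and `r` independent linear forms in
the entries, for each such function `f`, where `θ` is a linear form which is a primitive element;
differentiation with respect to `s` at `s = 0` gives `f = P / Q` with polynomials `P`, `Q` of bounded degree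
in the entries (Gauss' lemma shows that `Q ≠ 0`). So there is a common denominator of bounded degree for all
these functions; the space `J` of all such denominators is stable under translations by `G`; with a basis
`b_l` of `J` dual to the evaluations at points `y_l` of `G` one gets
`f(x) h(1) = ∑ (h(y_l x) f(x)) b_l(x⁻¹)` for `h` in `J`, and `x⁻¹` is a linear function of `x`. By the Hodge conjecture for `X ^ (N + 1)` and the bounded power theorem (starting files) the
classes `α_i`, `β_i` are algebraic. So the compositions
`β_i ∘ x` are numerically trivial classes in `𝒜 ⊠ D(X ^ (N + 1))`, hence zero, and `x = ∑ α_i ∘ β_i ∘ x = 0`.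
The pieces of the proof of the explicit bound are by helper37, helper61, helper35, helper44, helper40 and
helper39.
-/

open CategoryTheory AlgebraicGeometry

universe u

namespace Pool.Agent.Results.MP_28af06_ag.AnyVarietyTimesAmplitude

open Pool.Agent.H914 Pool.Agent.Y121.AHS Pool.Agent.K6.H94.NX
open Pool.Agent.K6.H94.XB (factors)
open Pool.Agent.K6.H61.DH (Form IsPol)
open Pool.Agent.Y133.Half (pw)

variable {k : Type u} [Field k] {𝒱 : VarClass k} {ops : CycleOps 𝒱}

/-- **If the Hodge conjecture holds for `X ^ (N + 1)`, then for all `𝒜` with `HH_n(𝒜) = 0` for `|n| > w` the
noncommutative standard conjecture of type `D` for `𝒜 ⊠ D^perf(X ^ (N + 1))` implies the one for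
`𝒜 ⊠ D^perf(X ^ n)` for all `n`**, if `N + 1 ≥ factors b d w`, where `d` is a bound of the dimension and `b` a
bound of the sum of the Betti numbers of `X`. `pw X n` is the product of `n + 1` copies of `X`. -/
theorem result (T : HodgeTheory ops) (b d w N : ℕ) (hN : factors b d w ≤ N + 1)
    (X : 𝒱.Obj) (ψ : Form T X) (hψ : IsPol T X ψ) (hb : Module.finrank T.W.K (T.W.H X) ≤ b)
    (hd : X.dim ≤ d) (hO : HodgeConj T (pw X N)) (Z : 𝒱.Obj) (q : Kernel T Z)
    (hq : IsAdmissible T q) (hw : AmplitudeLE T q w) (h : NCStandardD T (box T q (pw X N))) :
    (∀ n, NCStandardD T (box T q (pw X n))) ∧
      ∀ (Y : 𝒱.Obj) (p : Kernel T Y), IsAdmissible T p → FromBoxes T q X p → NCStandardD T p :=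
  ncd_mainN hψ (Pool.Agent.K6.H94.XB.bnd_le hb hd hN) hO hq hw h

end Pool.Agent.Results.MP_28af06_ag.AnyVarietyTimesAmplitude
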