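import Mathlib
import Pool.Agent.TH131.GHC.Final
import Pool.Agent.K6.H94.ND.Main

/-!
# The noncommutative standard conjecture of type `D` for `D(A ^ m) ⊠ 𝒜`, `𝒜` arbitrary: reduction to
`m ≤` the Hochschild amplitude of `𝒜`

*The abelian variety.* Let `A = ∏ A i`, where the `A i` are simple complex abelian varieties such that
the centre of the endomorphism algebra of `A i` is totally real (types I, II and III in the
classification of Albert) and such that some nonzero complex matrix of rank at most two kills all
Hodge tensors of `A i`. For instance: all abelian varieties with endomorphism ring `ℤ` (or real or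
quaternion multiplication of indefinite type) and with maximal Hodge group, hence the very general
ones, those with endomorphism ring `ℤ` and odd dimension, and all elliptic curves without complex
multiplication. The complex torus `A i` is `ℂ ^ g / (ℤ ^ g + Z ℤ ^ g)`, `Z` the `i`-th of the period
matrices `Z i` (every complex abelian variety is isogenous to such a torus), and `DZ (bigD ℂ Z)` is the
Hodge operator of `H_1(A, ℂ)`.

*The dg category.* Let `𝒜` be **any** smooth proper dg category over the complex numbers which is an
admissible subcategory of `D^perf(Y)`, or more generally a direct factor of the noncommutative motive of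
`Y`, for any smooth proper complex variety `Y` (for example `D^perf(Y)` itself), and suppose that the
Hochschild homology `HH_n(𝒜)` vanishes for `|n| > w` (`Amplitude`); for example `w = dim Y`. Nothing
else is assumed: the Hodge structures of `A` and `𝒜` can be dependent in any way. (The starting results
`AllCMTypesTimes` and others are about abelian varieties over finite fields whose Frobenius eigenvalues
are independent of those of `Y`.)

*The Grothendieck groups* (`KGroup`, `IsKTheory`). `K m` is the group `K_0(D(A ^ m) ⊠ 𝒜) ⊗ ℚ` with its
Euler pairing and its Chern character, whose kernel is the space of homologically trivial classes: over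
the complex numbers, `HP_+` is `K^top_0 ⊗ ℂ`. It is used that the values of the Chern character are Hodge classes,
and that the inverse images under homomorphisms `A ^ m → A ^ n` and the convolution with algebraic
curves on `A ^ m` have adjoints.

**Theorem.** The noncommutative standard conjecture of type `D` for `D(A ^ w) ⊠ 𝒜` (the numerically
trivial classes are homologically trivial) implies the noncommutative standard conjecture of type `D` for
`D(A ^ m) ⊠ 𝒜`, for all `m` (and so for all `D(∏ A i ^ (m i)) ⊠ 𝒜`). In particular, for every smooth
projective variety `Y` of dimension `w`, Grothendieck's standard conjecture of type `D` for `A ^ w × Y`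
implies the one for `A ^ m × Y` for all `m`. (If the standard conjecture of Lefschetz type is known for
`Y`, for instance for surfaces, then type `D` is known for all `A ^ m × Y`; nothing is assumed on `Y` here,
so that it can be any threefold.)

*The proof.* By the inverse images it is enough to consider the components `s` of the Chern characters of
numerically trivial classes in `H^1(A) ⊗ ... ⊗ H^1(A) ⊗ K^top(𝒜)`, with one factor `H^1(A)` for each of the
factors `A` of `A ^ κ`. They are Hodge tensors, hence their components generate a sub-Hodge structure of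
`H^1(A)^{⊗ κ}` of level at most `w`. If `κ > w`, it belongs to the ideal generated by the divisor
classes, by a theorem of the starting files (`Pool.Agent.TH131.GHC.le_IdQ`; it depends on the first
fundamental theorem of invariant theory). The contraction of `s` in two variables with a bivector in
`H_1(A) ⊗ H_1(A)` is given by the convolution with a combination of curves on `A ^ κ`, so it is the
component of a numerically trivial class for `A ^ (κ - 2)`, and it vanishes by induction. By the positivity
of the polarization an element of the ideal whose contractions vanish is zero.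
-/

set_option autoImplicit false

namespace Pool.Agent.Results.MP_28af06_ag.BoundedByAmplitude

open Matrix Pool.Agent.H204R3.CM Pool.Agent.H194R3.CM Pool.Agent.W437.HC Pool.Agent.W437.HD
  Pool.Agent.W437.HP Pool.Agent.TH131.GHC Pool.Agent.K6.H94.DL Pool.Agent.K6.H94.NC
  Pool.Agent.K6.H94.ND

/-- The rational matrix `φ` is an endomorphism (with rational coefficients) of the abelian variety
`ℂ ^ g / (ℤ ^ g + Z ℤ ^ g)`: its action on the rational homology comes from a complex linear map
`M` of the tangent space (`perOne Z` is the inclusion `(a, b) ↦ a + Z b`). -/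
def IsEndomorphism {g : ℕ} (Z : Matrix (Fin g) (Fin g) ℂ)
    (φ : Matrix (Fin g ⊕ Fin g) (Fin g ⊕ Fin g) ℚ) : Prop :=
  ∃ M : Matrix (Fin g) (Fin g) ℂ, ∀ w, perOne Z (φ.mulVec w) = M.mulVec (perOne Z w)

/-- The centre of the endomorphism algebra is totally real: an endomorphism which commutes with all
endomorphisms is symmetric for the principal polarization. -/
def HasRealCentre {g : ℕ} (Z : Matrix (Fin g) (Fin g) ℂ) : Prop :=
  ∀ φ, IsEndomorphism Z φ → (∀ ψ, IsEndomorphism Z ψ → φ * ψ = ψ * φ) →
    φ.transpose * fromBlocks 0 1 (-1) 0 = fromBlocks 0 1 (-1) 0 * φ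

/-- The matrix `X`, acting as a derivation, kills all rational tensors on the homology which are
killed by the Hodge operator `DZ Z = -i J` (the Hodge tensors), `J` the matrix of the complex
structure. -/
def KillsHodgeTensors {g : ℕ} (Z : Matrix (Fin g) (Fin g) ℂ)
    (X : Matrix (Fin g ⊕ Fin g) (Fin g ⊕ Fin g) ℂ) : Prop :=
  ∀ (n : ℕ) (c : (Fin n → Fin g ⊕ Fin g) → ℚ), act (DZ Z) (cst ℂ c) = 0 → act X (cst ℂ c) = 0

/-- **The noncommutative standard conjecture of type `D` for `D(A ^ w) ⊠ 𝒜` implies the one for
`D(A ^ m) ⊠ 𝒜` for all `m`, if `HH_n(𝒜) = 0` for `|n| > w`.** -/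
theorem result {n v : ℕ} {d : Fin n → ℕ} (Z : ∀ i, Matrix (Fin (d i)) (Fin (d i)) ℂ)
    (hper : ∀ i, (Z i).transpose = Z i ∧ ((Z i).map Complex.im).PosDef)
    (hsimple : ∀ i, IsSimpleAV (Z i)) (hcentre : ∀ i, HasRealCentre (Z i))
    (hrank : ∀ i, ∃ X, X ≠ 0 ∧ X.rank ≤ 2 ∧ KillsHodgeTensors (Z i) X)
    (V : Coh v) (P : Matrix (Fin v) (Fin v) ℚ) (hP : IsProjector V P)
    (w : ℕ) (hw : Amplitude V P w)
    (K : ∀ m, KGroup (Fin m × (Fin (NB d) ⊕ Fin (NB d))) v)
    (hK : IsKTheory (DZ (bigD ℂ Z)) V P K)
    (hD : StandardD (K w)) (m : ℕ) : StandardD (K m) := by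
  have hp : ∀ i, Pool.Agent.W437.HR.HasPcs (DZ (Z i)) := by
    intro i
    obtain ⟨X, hX0, hXr, hX⟩ := hrank i
    refine Pool.Agent.TH125.hasPcs_of_rank (hper i).1 (hper i).2 (hsimple i) ?_ hX hX0 hXr
    intro φ M hφ hc
    refine hcentre i φ ⟨M, hφ⟩ fun ψ hψ => ?_
    obtain ⟨N, hN⟩ := hψ
    exact hc ψ N hN
  have hZ : ∀ i, (Z i).transpose = Z i := fun i => (hper i).1
  have hpos : ∀ i, (imM (Z i)).PosDef := fun i => (hper i).2
  exact main_nd (polOf (bigD_symm hZ) (imM_bigD_posDef Z hpos)) (coreP_prod Z hZ hpos hp)
    (fun m c hc => Pool.Agent.W437.HR.mem_MS_prod Z hZ hpos hp c hc) hP hK hw hD m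

end Pool.Agent.Results.MP_28af06_ag.BoundedByAmplitude
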