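import Mathlib
import Pool.Agent.Q29.EP.RowsCT
import Pool.Agent.Y1.CT.Thms

/-!
# The noncommutative standard conjecture of type D and tensor products with abelian varieties with one
half of all slope types of every CM field of degree `2 r ^ k`

Let `K i` (`i` in a finite set) be CM fields of degree `2 g i` which are pairwise independent: for
`i ≠ k` and all complex embeddings `φ` of `K i` and `ψ` of `K k` some automorphism of `ℂ` is the
identity on `φ (K i)` and the complex conjugation on `ψ (K k)` (no condition for one field). We fix
an isomorphism `ν` of the algebraic closure of `ℚ_p` with `ℂ`; it defines a `p`-adic valuation of
`ℂ`. Let `M i` be a function with integral values on the complex embeddings of `K i`, invariant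
under complex conjugation (the weights). A CM type `Φ i` of `K i`, `M i` and a real number `κ ≠ 0`
prescribe the slopes `(a + κ M) / 2` (at the embeddings in `Φ i`) and `(a - κ M) / 2` (outside of
`Φ i`) of a Weil number for `p ^ a` in `K i`. The case `M = 1`, `κ = a` is the ordinary case.

**The property `P` of the slope types.** Let `π i` be Weil numbers for `q = p ^ a` that generate the
fields `K i` and have the slope types `Φ i`, `M i` (`HasType`), and let `f i` be monic polynomials
whose complex roots are conjugates of `π i`. Let `A` be an abelian variety over the field with
`Q = q ^ s` elements which is isogenous to a product of powers of abelian varieties coming from the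
field with `q` elements, with characteristic polynomials `f i`, and let `Z` be **any** smooth
projective variety over the field with `Q` elements such that the eigenvalues `ρ` of Frobenius on
the cohomology of `Z` and their conjugates are independent of the fields `K i` (`Independent`): for
each complex embedding `ψ` of `K i` there is an automorphism `τ` of `ℂ` which fixes a power of `ρ`
and is the complex conjugation on `ψ (K i)`. Let `𝒜` be a smooth proper dg category whose
noncommutative motive with rational coefficients is a direct summand `(Z, e)` of the one of `Z` (for
instance `perf_dg(Z)`, the perfect complexes over a sheaf of Azumaya algebras on `Z`, or a component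
of a semiorthogonal decomposition of `perf_dg(Z)`). Then (`NCHomTimes`, starting files) one has
`K_0(perf_dg(A) ⊗ 𝒜)_ℚ = ⨁ D j × K_0(𝒜)_ℚ` modulo homological equivalence, with finitely many
products `D j` of divisor classes on `A`, and the same for the kernels of the Euler pairings; and
**the noncommutative standard conjecture of type D (homological and numerical equivalence coincide)
holds for `perf_dg(A) ⊗ 𝒜` if and only if it holds for `𝒜`.** For a point `Z` it is true.

**The theorem.** Let `E` be **any CM field of degree `2 g = 2 r ^ k`**, `r` a prime number, of
degree at least `16` if `r = 2`; nothing is assumed about the Galois group of the normal closure of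
`E`, and nothing about the subfields of `E`.

* (`HalfOfAll`) For all weights `M` (odd if `r = 2`; if `r` is odd then `r` may divide some, but not
  all of them) the property `P` is true for **at least one half of all `2 ^ g` types** of `E`.
* (`MostWithWeightsOne`) For the weights `M = 1` it is true for at least `(1 - 1 / r) 2 ^ g` of the
  types.
* (`OneOfTwo`) There is a set `B` of embeddings of `E`, stable under complex conjugation, such that
  for **every** type `Φ` it is true for `Φ` or for the symmetric difference of `Φ` and `B`.
* (`SixteenPercent`) There is a number `g₀` such that for every CM field that is **abelian over
  `ℚ`**, of any degree `2 g ≥ 2 g₀`, and all odd weights it is true for at least 16 percent of all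
  `2 ^ g` types.

All this is proved more generally for finitely many pairwise independent fields `K i`. The bound for
the exceptional types in the starting files (`AllCMTypesTimes`) says nothing about fields with many
CM subfields, for instance about multiquadratic fields. The property for abelian varieties without
relations between the Frobenius eigenvalues, and the count of the types without relations, are in
the starting files (`ncHomTimes`, `Q29/EP`); the framework (`TheoryData`, `IsChow`, `IsWeil`) is the
one of the starting files.
-/

set_option autoImplicit false

namespace Pool.Agent.Results.MP_28af06_ag.HalfOfAllTimes

open NumberField Module Pool.Agent.H204R3.CM Pool.Agent.H977R3.CM Pool.Agent.Y1.KN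
  Pool.Agent.Y1.CT Pool.Agent.Q29.EP

open Pool.Agent.Q29.DP (of_independent)

/-- The property of the slope types `Φ i` with the weights `M i`: the noncommutative standard
conjecture D for `(A × Z, 1 × e)` is equivalent to the one for `(Z, e)`, for all abelian varieties `A`
whose Frobenius eigenvalues are powers of conjugates of Weil numbers with these slope types, and all
`Z` independent of the fields `K i`. -/
def P : TypeProperty := fun _ _ ν _ _ K _ _ _ M Φ => ForAllTypes ν K M (NCHomTimes K) Φ

/-- **The noncommutative standard conjecture of type D for `perf_dg(A) ⊗ 𝒜` is equivalent to the one
for `𝒜`, for the abelian varieties `A` with one half of all slope types of every CM field of degree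
`2 r ^ k`, and all independent `𝒜`.** -/
theorem result : HalfOfAll P ∧ MostWithWeightsOne P ∧ OneOfTwo P ∧ SixteenPercent P := by
  have h : WithoutRelations P := of_independent (P := fun _ K _ => NCHomTimes K)
    fun _ _ _ _ _ _ hQ hR => ncHomTimes hQ hR
  exact ⟨halfOfAll h, mostWithWeightsOne h, oneOfTwo h, sixteenPercent h⟩

end Pool.Agent.Results.MP_28af06_ag.HalfOfAllTimes
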