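import Pool.Agent.T6helper6.PM.NC

/-!
# The standard conjecture D, commutative and noncommutative, depends only on the prime field

`k` is a perfect field, for example a prime field, and `K` is any perfect extension field;
`D = DM_c(k)`, `C = DM_c(K)` are the categories of constructible motives with rational coefficients, `RD`
and `RC` are realisations (see below), and `PD n`, `PC n` are the classes of the finite sums of Chow
motives `h(X)(i)[2i]`, `X` smooth and projective of dimension `≤ n` over `k`, `K`, and of their direct
summands. Let `𝒜` be a smooth proper dg category whose noncommutative motive with rational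
coefficients is a direct summand of the one of `perf_dg(X)`, `X` smooth and projective of dimension
`≤ n` (for example a component of a semiorthogonal decomposition of `perf_dg(X)`, or the perfect
complexes over a sheaf of Azumaya algebras on `X`); we say that `𝒜` is geometric of dimension `≤ n`.
`NCStandardD RC (PC n)` is the equality `V_hom = V_num` of the problem for all geometric dg categories
over `K` of dimension `≤ n`: if `M` is the sum of the `h(X)(i)[2i]`, `0 ≤ i ≤ dim X`, then
`Hom(𝟙, M) = K_0(X)_ℚ`, `H(M)` is the even cohomology of `X`, that is `HP_0` or `TP_0[1/p]`, and `K_0(𝒜)_ℚ` is
the image of a correspondence `e` from `X` to `X`; the homologically and numerically trivial classes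
of `K_0(𝒜)_ℚ` are those which are so in `K_0(X)_ℚ` (Tabuada). (It is equivalent to the standard
conjecture D for all `X` of dimension `≤ n`, which is the case `e = 𝟙`.)

Theorem. (1) If the conjecture holds over `k` for all geometric dg categories of dimension `≤ n + r` then
it holds for those of dimension `≤ n` over every extension `K` of transcendence degree `≤ r`.
(2) If it holds over some `K` in dimension `≤ n` then also over `k`.
(3) For every `K`, of finite or infinite transcendence degree: the conjecture holds for all geometric dg
categories over `K` if and only if it holds for those over `k`.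

So the noncommutative standard conjecture D for all geometric dg categories over all perfect
fields, like the standard conjecture D itself, is equivalent to its case over the prime fields
`ℚ` and `𝔽_p`.

The hypotheses are known theorems.
* In characteristic zero let `RD`, `RC` be Betti or `l`-adic cohomology (the homological equivalence of
  the problem is defined by de Rham cohomology, and is the same); in characteristic `p` crystalline
  cohomology, with coefficients extended from `W(k)[1/p]`, `W(K)[1/p]` to a common field (`l`-adic
  cohomology gives the same theorem for `l`-adic homological equivalence). `UnitScalar`: `CH^0` of a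
  point is `ℚ`.
* `Descends`: base change preserves cohomology; if a cycle on `X`, over `k`, has nonzero intersection
  number with a cycle over `K` then this is also so for the specialisation of the second cycle at a
  closed point of a model, and for its direct image over `k`.
* `HasPairings`: let `M` be a Chow motive over `K`, for example `h(X)(i)[2i]`, and `z` an element which is
  nonzero in cohomology. They are defined over a smooth variety `U` over `k` of dimension `≤ r`, and `X` is
  the generic fibre of a smooth projective family over `U`. By Deligne's semisimplicity theorem
  there is a morphism of lisse sheaves over `U` from the cohomology of `M` to the constant one which is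
  nonzero on `z`, and by his theorem of the fixed part it comes from a cohomology class of a smooth
  compactification `Y` of the family (in characteristic `p`: of an alteration). `N` is the motive of `Y`,
  `sp` is the restriction of cycles to the generic fibre, and `ψ` is the intersection with `z` in the fibre
  over a closed point of `U`. For crystalline cohomology these theorems are due to Abe and Caro,
  Kedlaya, and Morrow; there it is enough to take `k = 𝔽_p`.

Proof. `k` to `K`: `ψ` is a nonzero cycle class on `Y`. By the conjecture for `Y` there is a cycle `y` on `Y`
with nonzero intersection number; then the restriction of `y` to the generic fibre has nonzero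
intersection number with `z`. `K` to `k`: specialisation.
-/

set_option autoImplicit false

open CategoryTheory Limits MonoidalCategory Pretriangulated Triangulated

universe v u w

namespace Pool.Agent.Results.MP_28af06_ag.PrimeFields

open Pool.Agent.Y116.MT Pool.Agent.T6helper6.AF Pool.Agent.K6.H98.PF Pool.Agent.T6helper6.PM

/-- The standard conjecture D for geometric dg categories over `K` and over `k`. -/
theorem result {D : Type u} [Category.{v} D] [Preadditive D] [HasZeroObject D] [HasShift D ℤ]
    [∀ n : ℤ, (shiftFunctor D n).Additive] [Pretriangulated D] [MonoidalCategory D]
    [SymmetricCategory D] [TensorTriangulated D] [MonoidalPreadditive D] [RightRigidCategory D]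
    [Linear ℚ D]
    {C : Type u} [Category.{v} C] [Preadditive C] [HasZeroObject C] [HasShift C ℤ]
    [∀ n : ℤ, (shiftFunctor C n).Additive] [Pretriangulated C] [MonoidalCategory C]
    [SymmetricCategory C] [TensorTriangulated C] [Linear ℚ C]
    {E : Type w} [Field E] [CharZero E] (RD : Realisation D E) (RC : Realisation C E)
    (hD : UnitScalar D) (hC : UnitScalar C)
    (PD : ℕ → D → Prop) (hPD : IsDimension PD) (PC : ℕ → C → Prop) :
    -- from `k` to `K`
    (∀ r : ℕ, (∀ n, HasPairings RD RC (PD (n + r)) (PC n)) →
      ∀ n, NCStandardD RD (PD (n + r)) → NCStandardD RC (PC n)) ∧
    -- from `K` to `k`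
    (∀ (Φ : D ⥤ C) (e₀ : Φ.obj (𝟙_ D) ≅ 𝟙_ C), (∀ n, Descends Φ e₀ RD RC (PD n) (PC n)) →
      (∀ n, NCStandardD RC (PC n) → NCStandardD RD (PD n)) ∧
      -- in all dimensions
      (HasPairings RD RC (fun N => ∃ n, PD n N) (fun M => ∃ n, PC n M) →
        ((∀ n, NCStandardD RC (PC n)) ↔ ∀ n, NCStandardD RD (PD n)))) := by
  have down : ∀ (Φ : D ⥤ C) (e₀ : Φ.obj (𝟙_ D) ≅ 𝟙_ C),
      (∀ n, Descends Φ e₀ RD RC (PD n) (PC n)) →
        ∀ n, NCStandardD RC (PC n) → NCStandardD RD (PD n) := fun Φ e₀ hΦ n h =>
    (ncStandardD_iff hD).2 (homEqNum_descends (hΦ n) ((ncStandardD_iff hC).1 h))
  refine ⟨fun r hp n h => (ncStandardD_iff hC).2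
    (homEqNum_ascends (fun _ => hPD.dual) (hp n) ((ncStandardD_iff hD).1 h)), ?_⟩
  intro Φ e₀ hΦ
  refine ⟨down Φ e₀ hΦ, fun hp => ⟨fun h n => down Φ e₀ hΦ n (h n), fun h n => ?_⟩⟩
  have h1 : HomEqNum RD (fun N => ∃ n, PD n N) := fun N hN f hf => by
    obtain ⟨m, hm⟩ := hN
    exact (ncStandardD_iff hD).1 (h m) N hm f hf
  have h2 := homEqNum_ascends (fun N hN => hN.imp fun m hm => hPD.dual hm) hp h1
  exact (ncStandardD_iff hC).2 fun M hM => h2 M ⟨n, hM⟩

end Pool.Agent.Results.MP_28af06_ag.PrimeFields
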